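import Pool.Agent.helper7.ZB.SpecT

/-!
# Row zb:ZUX (MP_baa4d7_al, project ZB): the induced block exists
-/

set_option autoImplicit false

namespace Pool.Agent.ZB

open Pool.Agent.helper58.DC Pool.Agent.DI Pool.Agent.GR Pool.Agent.OB Pool.Agent.DR Pool.Agent.FI Pool.Agent.FI3 Pool.Agent.FI4 Pool.Agent.FI4I Pool.Agent.LE Pool.Agent.L5 Pool.Agent.NAB

theorem ZUX (hCFA : CFA_stmt) (hNFV : NFV_stmt) (hEXB : EXB_stmt)
    (hTRN : Pool.Agent.FI.TRN_stmt) : ZUX_stmt := by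
  intro p M hs G _ _ L E hpE hEL η hη
  have hczE : cz E ≤ nz E := by
    intro g hg
    rw [Subgroup.mem_normalizer_iff]
    have key : ∀ a ∈ cz E, ∀ y ∈ E, a * y * a⁻¹ = y := by
      intro a ha y hy
      have h := Subgroup.mem_centralizer_iff.mp ha y hy
      rw [← h]
      group
    intro y
    constructor
    · intro hy
      rw [key g hg y hy]
      exact hy
    · intro hy
      have h := key g⁻¹ ((cz E).inv_mem hg) _ hy
      have e1 : g⁻¹ * (g * y * g⁻¹) * g⁻¹⁻¹ = y := by group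
      rw [e1] at h
      rw [h]
      exact hy
  set H : Subgroup G := L ⊓ nz E with hH
  have hEH : E ≤ H := le_inf hEL Subgroup.le_normalizer
  have hHn : H ≤ nz E := inf_le_right
  have hK1 : H ⊓ cz E ≤ H := inf_le_left
  have hK2 : H ≤ nz (H ⊓ cz E) := by
    intro g hg
    have key : ∀ a ∈ H, ∀ y : G, y ∈ H ⊓ cz E → a * y * a⁻¹ ∈ H ⊓ cz E := by
      intro a ha y hy
      exact ⟨H.mul_mem (H.mul_mem ha hy.1) (H.inv_mem ha), cz_conj (hHn ha) hy.2⟩
    rw [Subgroup.mem_normalizer_iff]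
    intro y
    constructor
    · intro hy
      exact key g hg y hy
    · intro hy
      have := key g⁻¹ (H.inv_mem hg) _ hy
      have e1 : g⁻¹ * (g * y * g⁻¹) * g⁻¹⁻¹ = y := by group
      rwa [e1] at this
  obtain ⟨ψ₀, hψ₀, n, hn, hov⟩ := (hCFA G (H ⊓ cz E) H hK1 hK2).1 η hη
  have hS : SB M H η ψ₀ := hNFV p M hs G E H hpE hEH hHn η hη ψ₀ hψ₀ n hn hov
  have hKL : H ⊓ cz E = L ⊓ cz E := by
    apply le_antisymm
    · exact le_inf (inf_le_left.trans inf_le_left) inf_le_right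
    · exact le_inf (le_inf inf_le_left (inf_le_right.trans hczE)) inf_le_right
  have hψ₁ : ψ₀ ∈ IrrOn (L ⊓ cz E) := by rw [← hKL]; exact hψ₀
  obtain ⟨ψ, hψ, hSψ⟩ := hEXB p M hs G L E hpE hEL ψ₀ hψ₁
  refine ⟨ψ, hψ, ?_⟩
  have hz : ∀ y, y ∉ H → ψ₀ y = 0 := fun y hy => hψ₀.1 y fun h => hy h.1
  exact (hTRN G M H L inf_le_left η ψ₀ ψ hη.1 hz hS).1.trans hSψ

end Pool.Agent.ZB
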